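import Pool.Agent.W780.BB.Final

set_option autoImplicit false

/-!
# Billiards in convex polygons are ergodic for sets of finite directional perimeter

Let `P` be a convex polygon. Every measurable set of states (position, direction) which is invariant
under the billiard flow and has finite directional perimeter depends, up to a null set, only on the
direction. All such sets are null or conull if and only if `P` is irrational, that is, some angle of
`P` is not a rational multiple of `π` (this holds for almost every convex `n`-gon).
-/

namespace Pool.Agent.Results.MP_7bc51d_an.FinitePerimeterErgodicity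

open Pool.Agent.W780 Pool.Agent.W780.BB Pool.Agent.W780.PG MeasureTheory

open scoped Real

theorem result {n : ℕ} {p : Fin (n + 3) → ℂ} (hp : IsConvexPolygon p) :
    (∀ A : Set (ℂ × ℝ), MeasurableSet A → IsInvariant p A → FinitePerimeter p A →
      ∃ Θ : Set ℝ, MeasurableSet Θ ∧
        volume {x : ℂ × ℝ | x ∈ phase p ∧ ¬ (x ∈ A ↔ x.2 ∈ Θ)} = 0) ∧
    ((∃ i, Irrational (ang p i / π)) ↔
      ∀ A : Set (ℂ × ℝ), MeasurableSet A → IsInvariant p A → FinitePerimeter p A →
        IsTrivial p A) :=
  finished hp

end Pool.Agent.Results.MP_7bc51d_an.FinitePerimeterErgodicity
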